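import Pool.Agent.helper94.AP.SpecU

set_option autoImplicit false

/-!
# AP (MP_16912e_nt), row ap:XI: the number of `x` in the interval and in given classes
-/

namespace Pool.Agent.AP

open Finset

theorem XI_cnt (M : ℕ) (hM : 1 ≤ M) (s lo hi : ℤ) (F : Finset ℤ)
    (hF : ∀ x : ℤ, x ∈ F ↔ ∃ t : ℤ, x = s + M * t ∧ lo ≤ t ∧ t < hi) :
    F.card = (hi - lo).toNat := by
  have h1 : F = (Finset.Ico lo hi).image (fun t : ℤ => s + (M : ℤ) * t) := by
    ext x
    rw [hF, Finset.mem_image]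
    constructor
    · rintro ⟨t, ht, h1, h2⟩
      exact ⟨t, Finset.mem_Ico.2 ⟨h1, h2⟩, ht.symm⟩
    · rintro ⟨t, ht, hx⟩
      obtain ⟨h1, h2⟩ := Finset.mem_Ico.1 ht
      exact ⟨t, hx.symm, h1, h2⟩
  rw [h1, Finset.card_image_of_injective, Int.card_Ico]
  intro t t' h
  have hM' : (M : ℤ) ≠ 0 := by
    have : (0 : ℤ) < M := by exact_mod_cast hM
    exact this.ne'
  have h2 : (M : ℤ) * t = M * t' := by
    have h3 : s + (M : ℤ) * t = s + (M : ℤ) * t' := h
    linarith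
  exact mul_left_cancel₀ hM' h2

theorem XI_close (lo hi : ℤ) (α β : ℝ) (hαβ : α ≤ β) (h1 : α ≤ lo) (h2 : (lo : ℝ) ≤ α + 1)
    (h3 : β ≤ hi) (h4 : (hi : ℝ) ≤ β + 1) :
    |(((hi - lo).toNat : ℕ) : ℝ) - (β - α)| ≤ 1 := by
  rcases le_or_gt lo hi with h | h
  · have h5 : (((hi - lo).toNat : ℕ) : ℝ) = (hi : ℝ) - lo := by
      have : (((hi - lo).toNat : ℕ) : ℤ) = hi - lo := Int.toNat_of_nonneg (by omega)
      exact_mod_cast this
    rw [h5, abs_le]
    constructor <;> linarith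
  · have h5 : (hi - lo).toNat = 0 := Int.toNat_of_nonpos (by omega)
    rw [h5, abs_le]
    have h6 : (hi : ℝ) + 1 ≤ lo := by exact_mod_cast h
    push_cast
    constructor <;> linarith

/-- one class -/
theorem XI_one (M : ℕ) (hM : 1 ≤ M) (s : ℤ) (a b : ℝ) (ha : 0 ≤ a) (hab : a ≤ b) (F : Finset ℤ)
    (hF : ∀ x : ℤ, x ∈ F ↔ (a ≤ |(x : ℝ)| ∧ |(x : ℝ)| < b) ∧ ∃ t : ℤ, x = s + M * t) :
    |(F.card : ℝ) - 2 * (b - a) / M| ≤ 2 := by
  have hM0 : (0 : ℝ) < M := by exact_mod_cast hM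
  have hsplit : F.card = (F.filter fun x => 0 ≤ x).card + (F.filter fun x => ¬ 0 ≤ x).card :=
    (Finset.card_filter_add_card_filter_not (s := F) (fun x : ℤ => 0 ≤ x)).symm
  -- the non negative part
  have hP := XI_cnt M hM s ⌈(a - s) / M⌉ ⌈(b - s) / M⌉ (F.filter fun x => 0 ≤ x) (by
    intro x
    rw [Finset.mem_filter, hF]
    constructor
    · rintro ⟨⟨⟨h1, h2⟩, t, ht⟩, h0⟩
      refine ⟨t, ht, ?_, ?_⟩
      · rw [Int.ceil_le, div_le_iff₀ hM0]
        have h0' : (0 : ℝ) ≤ x := by exact_mod_cast h0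
        rw [abs_of_nonneg h0'] at h1
        have hx : (x : ℝ) = s + M * t := by rw [ht]; push_cast; ring
        linarith
      · rw [Int.lt_ceil, lt_div_iff₀ hM0]
        have h0' : (0 : ℝ) ≤ x := by exact_mod_cast h0
        rw [abs_of_nonneg h0'] at h2
        have hx : (x : ℝ) = s + M * t := by rw [ht]; push_cast; ring
        linarith
    · rintro ⟨t, ht, h1, h2⟩
      have hx : (x : ℝ) = s + M * t := by rw [ht]; push_cast; ring
      rw [Int.ceil_le, div_le_iff₀ hM0] at h1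
      rw [Int.lt_ceil, lt_div_iff₀ hM0] at h2
      have h3 : a ≤ (x : ℝ) := by linarith
      have h4 : (x : ℝ) < b := by linarith
      have h5 : (0 : ℝ) ≤ x := le_trans ha h3
      rw [abs_of_nonneg h5]
      exact ⟨⟨⟨h3, h4⟩, t, ht⟩, by exact_mod_cast h5⟩)
  -- the negative part
  have hQ0 : (F.filter fun x => ¬ 0 ≤ x).card =
      ((F.filter fun x => ¬ 0 ≤ x).map (Equiv.neg ℤ).toEmbedding).card := (Finset.card_map _).symm
  have hQ := XI_cnt M hM (-s) (max ⌈(a + s) / M⌉ (⌊(s : ℝ) / M⌋ + 1)) ⌈(b + s) / M⌉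
    ((F.filter fun x => ¬ 0 ≤ x).map (Equiv.neg ℤ).toEmbedding) (by
    intro z
    rw [Finset.mem_map]
    constructor
    · rintro ⟨x, hx, hxz⟩
      rw [Finset.mem_filter, hF] at hx
      obtain ⟨⟨⟨h1, h2⟩, t, ht⟩, h0⟩ := hx
      have hxz' : -x = z := hxz
      have h0' : (x : ℝ) < 0 := by exact_mod_cast not_le.1 h0
      rw [abs_of_neg h0'] at h1 h2
      have hx' : (x : ℝ) = s + M * t := by rw [ht]; push_cast; ring
      refine ⟨-t, by rw [← hxz', ht]; ring, ?_, ?_⟩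
      · rw [max_le_iff]
        constructor
        · rw [Int.ceil_le, div_le_iff₀ hM0]
          push_cast
          linarith
        · rw [← Int.lt_iff_add_one_le, Int.floor_lt, div_lt_iff₀ hM0]
          push_cast
          linarith
      · rw [Int.lt_ceil, lt_div_iff₀ hM0]
        push_cast
        linarith
    · rintro ⟨t, ht, h1, h2⟩
      rw [max_le_iff] at h1
      obtain ⟨h1, h3⟩ := h1
      rw [Int.ceil_le, div_le_iff₀ hM0] at h1
      rw [← Int.lt_iff_add_one_le, Int.floor_lt, div_lt_iff₀ hM0] at h3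
      rw [Int.lt_ceil, lt_div_iff₀ hM0] at h2
      have hz : (z : ℝ) = -s + M * t := by rw [ht]; push_cast; ring
      have hzpos : (0 : ℝ) < z := by linarith
      refine ⟨-z, ?_, neg_neg z⟩
      rw [Finset.mem_filter, hF]
      refine ⟨⟨?_, -t, by rw [ht]; ring⟩, ?_⟩
      · push_cast
        rw [abs_neg, abs_of_pos hzpos]
        constructor <;> linarith
      · have : (0 : ℤ) < z := by exact_mod_cast hzpos
        omega)
  have hc1 := XI_close ⌈(a - s) / M⌉ ⌈(b - s) / M⌉ ((a - s) / M) ((b - s) / M)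
    (div_le_div_of_nonneg_right (by linarith) hM0.le) (Int.le_ceil _) (Int.ceil_lt_add_one _).le
    (Int.le_ceil _) (Int.ceil_lt_add_one _).le
  have hc2 := XI_close (max ⌈(a + s) / M⌉ (⌊(s : ℝ) / M⌋ + 1)) ⌈(b + s) / M⌉ ((a + s) / M)
    ((b + s) / M) (div_le_div_of_nonneg_right (by linarith) hM0.le)
    (le_trans (Int.le_ceil _) (by exact_mod_cast le_max_left _ _)) (by
      have h1 : ((⌈(a + s) / M⌉ : ℤ) : ℝ) ≤ (a + s) / M + 1 := (Int.ceil_lt_add_one _).le
      have h2 : (((⌊(s : ℝ) / M⌋ + 1 : ℤ)) : ℝ) ≤ (a + s) / M + 1 := by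
        push_cast
        have h3 := Int.floor_le ((s : ℝ) / M)
        have h4 : (s : ℝ) / M ≤ (a + s) / M := div_le_div_of_nonneg_right (by linarith) hM0.le
        linarith
      rcases max_choice ⌈(a + s) / M⌉ (⌊(s : ℝ) / M⌋ + 1) with h | h
      · rw [h]; exact h1
      · rw [h]; exact h2)
    (Int.le_ceil _) (Int.ceil_lt_add_one _).le
  rw [← hP] at hc1
  rw [← hQ, ← hQ0] at hc2
  rw [hsplit]
  push_cast
  have e1 : (b - s) / M - (a - s) / M = (b - a) / (M : ℝ) := by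
    field_simp
    ring
  have e2 : (b + s) / M - (a + s) / M = (b - a) / (M : ℝ) := by
    field_simp
    ring
  rw [e1] at hc1
  rw [e2] at hc2
  have e3 : 2 * (b - a) / (M : ℝ) = (b - a) / M + (b - a) / M := by ring
  rw [e3]
  rw [abs_le] at hc1 hc2 ⊢
  constructor <;> linarith [hc1.1, hc1.2, hc2.1, hc2.2]

theorem XI : XI_stmt := by
  intro M S hM hS T N y hN hy F hF
  have hM0 : (0 : ℝ) < M := by exact_mod_cast hM
  have hMz : (0 : ℤ) < M := by exact_mod_cast hM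
  obtain ⟨a, ha⟩ : ∃ a : ℝ, √(T - N * y ^ 2) = a := ⟨_, rfl⟩
  obtain ⟨b, hb⟩ : ∃ b : ℝ, √(T - N / 2 * y ^ 2) = b := ⟨_, rfl⟩
  have ha0 : 0 ≤ a := ha ▸ Real.sqrt_nonneg _
  have hab : a ≤ b := by
    rw [← ha, ← hb]
    apply Real.sqrt_le_sqrt
    have : 0 < N * y ^ 2 := by positivity
    linarith
  have hell : ell T N y = 2 * (b - a) := by
    unfold ell
    rw [ha, hb]
  have hcond : ∀ x : ℤ, (N / 2 * y ^ 2 < T - (x : ℝ) ^ 2 ∧ T - (x : ℝ) ^ 2 ≤ N * y ^ 2) ↔
      (a ≤ |(x : ℝ)| ∧ |(x : ℝ)| < b) := by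
    intro x
    rw [← ha, ← hb, Real.lt_sqrt (abs_nonneg _), Real.sqrt_le_iff, sq_abs]
    constructor
    · rintro ⟨h1, h2⟩
      exact ⟨⟨abs_nonneg _, by linarith⟩, by linarith⟩
    · rintro ⟨⟨_, h1⟩, h2⟩
      exact ⟨by linarith, by linarith⟩
  have hcard : F.card = ∑ s ∈ S, (F.filter fun x => (x % (M : ℤ)).toNat = s).card :=
    Finset.card_eq_sum_card_fiberwise fun x hx => ((hF x).1 hx).2.2
  have hone : ∀ s ∈ S, |((F.filter fun x => (x % (M : ℤ)).toNat = s).card : ℝ) -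
      2 * (b - a) / M| ≤ 2 := by
    intro s hs
    have hsM : s < M := Finset.mem_range.1 (hS hs)
    refine XI_one M hM s a b ha0 hab _ ?_
    intro x
    rw [Finset.mem_filter, hF, ← hcond x]
    constructor
    · rintro ⟨⟨h1, h2, _⟩, h4⟩
      refine ⟨⟨h1, h2⟩, x / M, ?_⟩
      have h5 : x % (M : ℤ) = s := by
        rw [← h4, Int.toNat_of_nonneg (Int.emod_nonneg _ hMz.ne')]
      have h6 := Int.emod_add_mul_ediv x M
      rw [h5] at h6
      exact h6.symm
    · rintro ⟨⟨h1, h2⟩, t, ht⟩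
      have h5 : x % (M : ℤ) = s := by
        rw [ht, Int.add_mul_emod_self_left]
        exact Int.emod_eq_of_lt (by positivity) (by exact_mod_cast hsM)
      have h6 : (x % (M : ℤ)).toNat = s := by rw [h5]; exact Int.toNat_natCast s
      exact ⟨⟨h1, h2, h6 ▸ hs⟩, h6⟩
  have hsum : (F.card : ℝ) - S.card * ell T N y / M =
      ∑ s ∈ S, (((F.filter fun x => (x % (M : ℤ)).toNat = s).card : ℝ) - 2 * (b - a) / M) := by
    rw [Finset.sum_sub_distrib, Finset.sum_const, nsmul_eq_mul, hcard, hell]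
    push_cast
    ring
  rw [hsum]
  calc |∑ s ∈ S, (((F.filter fun x => (x % (M : ℤ)).toNat = s).card : ℝ) - 2 * (b - a) / M)|
      ≤ ∑ s ∈ S, |((F.filter fun x => (x % (M : ℤ)).toNat = s).card : ℝ) - 2 * (b - a) / M| :=
        Finset.abs_sum_le_sum_abs _ _
    _ ≤ ∑ _s ∈ S, (2 : ℝ) := Finset.sum_le_sum hone
    _ = 2 * S.card := by rw [Finset.sum_const, nsmul_eq_mul]; ring

end Pool.Agent.AP
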